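import Mathlib
import Pool.Agent.Y773.NV.St0

/-! Project NV: bilinear sums over a finite set of characters (`t_bil`). -/

set_option autoImplicit false

open Complex MeasureTheory

namespace Pool.Agent.Y421.NV

open Pool.Agent.Y773.NV

open Classical in
theorem t_bil : St_BIL := by
  intro α P nm ok C₁ η hC₁ hψ hnm hsum hoff a b Ca Cb hCa hCb ha hb
  -- summability
  have hsm : ∀ (c : α → ℂ) (Cc : ℝ), (∀ x, ok x → ‖c x‖ ≤ Cc * nm x ^ (-1 - η)) →
      ∀ ψ ∈ P, Summable fun x => ‖ψ x * c x‖ := by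
    intro c Cc hc ψ hP
    refine Summable.of_nonneg_of_le (fun x => norm_nonneg _) (fun x => ?_) (hsum.mul_left Cc)
    rw [norm_mul, hψ ψ hP x]
    split_ifs with h
    · rw [one_mul]; exact hc x h
    · simp
  set W : α × α → ℂ := fun p => ∑ ψ ∈ P, ψ p.1 * (starRingEnd ℂ) (ψ p.2) with hW
  set F : α × α → ℂ := fun p => W p * (a p.1 * (starRingEnd ℂ) (b p.2)) with hF
  have hprod : ∀ ψ ∈ P, Summable fun p : α × α =>
      (ψ p.1 * a p.1) * (starRingEnd ℂ) (ψ p.2 * b p.2) := by
    intro ψ hP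
    have h2 : Summable fun x => ‖(starRingEnd ℂ) (ψ x * b x)‖ :=
      (hsm b Cb hb ψ hP).congr fun x => (RCLike.norm_conj _).symm
    exact summable_mul_of_summable_norm (f := fun x => ψ x * a x)
      (g := fun x => (starRingEnd ℂ) (ψ x * b x)) (hsm a Ca ha ψ hP) h2
  have hFsum : ∀ p, F p = ∑ ψ ∈ P, (ψ p.1 * a p.1) * (starRingEnd ℂ) (ψ p.2 * b p.2) := by
    intro p
    simp only [hF, hW]
    rw [Finset.sum_mul]
    refine Finset.sum_congr rfl fun ψ _ => ?_
    rw [map_mul]
    ring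
  have hFS : Summable F := by
    have : F = fun p => ∑ ψ ∈ P, (ψ p.1 * a p.1) * (starRingEnd ℂ) (ψ p.2 * b p.2) :=
      funext hFsum
    rw [this]
    exact summable_sum hprod
  have h1 : ∑ ψ ∈ P, (∑' x, ψ x * a x) * (starRingEnd ℂ) (∑' x, ψ x * b x) = ∑' p, F p := by
    have : F = fun p => ∑ ψ ∈ P, (ψ p.1 * a p.1) * (starRingEnd ℂ) (ψ p.2 * b p.2) :=
      funext hFsum
    rw [this, Summable.tsum_finsetSum hprod]
    refine Finset.sum_congr rfl fun ψ hP => ?_
    rw [Complex.conj_tsum]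
    exact tsum_mul_tsum_of_summable_norm (f := fun x => ψ x * a x)
      (g := fun x => (starRingEnd ℂ) (ψ x * b x)) (hsm a Ca ha ψ hP)
      ((hsm b Cb hb ψ hP).congr fun x => (RCLike.norm_conj _).symm)
  -- the diagonal and the rest
  set Fd : α × α → ℂ := fun p => if p.1 = p.2 then F p else 0 with hFd
  set Fo : α × α → ℂ := fun p => if p.1 = p.2 then 0 else F p with hFo
  have hFdo : ∀ p, F p = Fd p + Fo p := by
    intro p
    simp only [hFd, hFo]
    split_ifs <;> simp
  have hFdS : Summable Fd := by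
    refine Summable.of_norm_bounded hFS.norm fun p => ?_
    simp only [hFd]
    split_ifs
    · exact le_rfl
    · simp
  have hFoS : Summable Fo := by
    refine Summable.of_norm_bounded hFS.norm fun p => ?_
    simp only [hFo]
    split_ifs
    · simp
    · exact le_rfl
  have h2 : ∑' p, F p = ∑' p, Fd p + ∑' p, Fo p := by
    rw [← hFdS.tsum_add hFoS]
    exact tsum_congr hFdo
  have h3 : ∑' p, Fd p =
      (P.card : ℂ) * ∑' x, (if ok x then a x * (starRingEnd ℂ) (b x) else 0) := by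
    have hinj : Function.Injective fun x : α => (x, x) := fun x y h => (Prod.mk.inj h).1
    rw [← hinj.tsum_eq (f := Fd), ← tsum_mul_left]
    · refine tsum_congr fun x => ?_
      simp only [hFd, hF, hW, if_true]
      have hw : ∑ ψ ∈ P, ψ x * (starRingEnd ℂ) (ψ x) = if ok x then (P.card : ℂ) else 0 := by
        have : ∀ ψ ∈ P, ψ x * (starRingEnd ℂ) (ψ x) = if ok x then 1 else 0 := by
          intro ψ hP
          rw [Complex.mul_conj, Complex.normSq_eq_norm_sq, hψ ψ hP x]
          split_ifs <;> simp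
        rw [Finset.sum_congr rfl this]
        split_ifs <;> simp
      rw [hw]
      split_ifs
      · rfl
      · simp
    · intro p hp
      rw [Function.mem_support] at hp
      simp only [hFd] at hp
      by_cases h : p.1 = p.2
      · exact ⟨p.1, by ext <;> simp [h]⟩
      · rw [if_neg h] at hp
        exact absurd rfl hp
  rw [h1, h2, h3, add_sub_cancel_left]
  refine (norm_tsum_le_tsum_norm hFoS.norm).trans ?_
  refine hFoS.norm.tsum_le_of_sum_le fun S => ?_
  set S' := S.filter fun p => ok p.1 ∧ ok p.2 ∧ p.1 ≠ p.2 with hS'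
  have h4 : ∑ p ∈ S, ‖Fo p‖ = ∑ p ∈ S', ‖Fo p‖ := by
    symm
    refine Finset.sum_subset (Finset.filter_subset _ _) fun p hp hp' => ?_
    rw [hS', Finset.mem_filter, not_and] at hp'
    have h5 := hp' hp
    rw [norm_eq_zero]
    simp only [hFo]
    by_cases h : p.1 = p.2
    · rw [if_pos h]
    · rw [if_neg h]
      have hz : ∀ x, ¬ ok x → ∀ ψ ∈ P, ψ x = 0 := by
        intro x hx ψ hP
        have := hψ ψ hP x
        rw [if_neg hx, norm_eq_zero] at this
        exact this
      have hW0 : W p = 0 := by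
        simp only [hW]
        refine Finset.sum_eq_zero fun ψ hP => ?_
        by_cases h6 : ok p.1
        · have h7 : ¬ ok p.2 := fun h7 => h5 ⟨h6, h7, h⟩
          rw [hz _ h7 ψ hP]; simp
        · rw [hz _ h6 ψ hP]; simp
      simp only [hF, hW0, zero_mul]
  rw [h4]
  have h8 : ∀ p ∈ S', ‖Fo p‖ ≤ Ca * Cb *
      (‖∑ ψ ∈ P, ψ p.1 * (starRingEnd ℂ) (ψ p.2)‖ * (nm p.1 * nm p.2) ^ (-1 - η)) := by
    intro p hp
    obtain ⟨-, o1, o2, hne⟩ := Finset.mem_filter.1 hp
    simp only [hFo, if_neg hne, hF, hW]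
    rw [norm_mul, norm_mul, RCLike.norm_conj,
      Real.mul_rpow (by linarith [hnm _ o1]) (by linarith [hnm _ o2])]
    have n1 : 0 < nm p.1 := by linarith [hnm _ o1]
    have h9 : ‖a p.1‖ * ‖b p.2‖ ≤ (Ca * nm p.1 ^ (-1 - η)) * (Cb * nm p.2 ^ (-1 - η)) :=
      mul_le_mul (ha _ o1) (hb _ o2) (norm_nonneg _)
        (mul_nonneg hCa (Real.rpow_nonneg n1.le _))
    calc _ ≤ ‖∑ ψ ∈ P, ψ p.1 * (starRingEnd ℂ) (ψ p.2)‖ *
        ((Ca * nm p.1 ^ (-1 - η)) * (Cb * nm p.2 ^ (-1 - η))) :=
          mul_le_mul_of_nonneg_left h9 (norm_nonneg _)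
      _ = _ := by ring
  refine (Finset.sum_le_sum h8).trans ?_
  rw [← Finset.mul_sum]
  refine mul_le_mul_of_nonneg_left (hoff S' fun p hp => ?_) (mul_nonneg hCa hCb)
  exact (Finset.mem_filter.1 hp).2

end Pool.Agent.Y421.NV
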